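import Mathlib
import Pool.Agent.Q298.Sol.Vague

/-!
# MP_da621d_pr, Q1: vague convergence of the law of the random solid angle

The measures `μ_d(A) = 2^d d P[α_d ∈ A]` on `(0,∞)` converge vaguely to a nonzero locally finite
measure.
-/

set_option autoImplicit false
open MeasureTheory Filter Set Q298.Sol
open scoped Topology ENNReal

namespace Pool.Agent.Results.MP_da621d_pr.VagueLimit

theorem result :
    (∀ d : ℕ, 1 ≤ d → ∀ A : Set (Ioi (0 : ℝ)), MeasurableSet A →
      muD d A = (2 : ℝ≥0∞) ^ d * d *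
        iid d d {U : Fin d → Sph d | solidAngle (pos fun i => (U i : Eu d)) ∈ Subtype.val '' A}) ∧
    ∃ μ : Measure (Ioi (0 : ℝ)), IsLocallyFiniteMeasure μ ∧ μ ≠ 0 ∧
      ∀ f : Ioi (0 : ℝ) → ℝ, Continuous f → HasCompactSupport f →
        Tendsto (fun d : ℕ => ∫ x, f x ∂(muD d)) atTop (𝓝 (∫ x, f x ∂μ)) := by
  refine ⟨?_, vague⟩
  intro d hd A hA
  obtain ⟨e, rfl⟩ : ∃ e, d = e + 1 := ⟨d - 1, by omega⟩
  unfold muD
  rw [Measure.smul_apply, smul_eq_mul, comap_subtype_coe_apply measurableSet_Ioi,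
    Measure.map_apply_of_aemeasurable (alp_aem e) (measurableSet_Ioi.subtype_image hA)]
  rfl

end Pool.Agent.Results.MP_da621d_pr.VagueLimit
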